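import Mathlib
import Pool.Agent.U289.GR.C

/-!
# The gcd recursion for prime triples: small defects in all intervals and residue classes

`b` is the 3-periodic sequence `2, 6, 0, ...`, `a N` the recursion `a_N` of the problem and
`f N = f(N)` its least zero. We prove that there are constants `C, c > 0` such that for ALL `Z, Y`,
all moduli `q ≥ 1` and classes `k` and all integers `2 ≤ H ≤ c log (Y / q)` at most
`C (q / φ(q)) ^ 3 (Y / q) (log H / log (Y / q)) ^ 3` integers `N ≥ 6` with `Z < N ≤ Z + Y` and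
`N ≡ k mod q` satisfy `N - f(N) ≤ H`. This is the order of magnitude which one expects for `q = 1`,
`Z = 0`; the starting result `TypicalDefect` has `H` in place of `(log H) ^ 3` and only initial
intervals.

Proof. The loss `N - 5 - n - a_N(n)` is the sum of the `gcd - 1` up to the time `n`, and at the zero
it is `N - 5 - f(N)`. A gcd larger than `1` at the time `n` forces a loss `≥ (n - 4) / 6`: a prime
`p` dividing the gcd at the time `n > 3 p + 1` divides also the gcd at the time `n - 3 p`, unless a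
gcd larger than `1` occurs in between (`b` has the period `3`, and without such gcds `a` drops by `1`
at every step); now use induction. So `N - f(N) ≤ H` implies that no gcd larger than `1` occurs
after the time `6 H`. The loss up to the time `6 H` is a function of `N` modulo `A`, the least
common multiple of `1, ..., 6 H + 6`. So in a residue class `r` modulo `A q` the zero is
`f(N) = N - 5 - loss(r)`, and `f(N) + 1`, `f(N) + 3`, `f(N) + 7` are primes (starting result
`LongLife`). Now an upper bound sieve for `N = A q m + r` which uses only the primes larger than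
`6 H` and not dividing `q` gives at most `C (q / φ(q)) ^ 3 (Y / (A q)) (log H / log (Y / q)) ^ 3`
numbers `N` for each of the `A` classes `r` modulo `A q` in the given class modulo `q`. (helper289)
-/

set_option autoImplicit false

namespace Pool.Agent.Results.MP_3f8e47_nt.BrunTitchmarshDefects

open Finset

/-- The 3-periodic sequence `2, 6, 0, 2, 6, 0, …` (indexed from 1). -/
def b (n : ℕ) : ℕ := if n % 3 = 1 then 2 else if n % 3 = 2 then 6 else 0

/-- the recursion `a_N`: `a_N(1) = N - 6`, `a_N(n) = a_N(n-1) - gcd(a_N(n-1), n + b(n))` for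
`n ≥ 2` (and `a_N(0) = 0`, not used) -/
noncomputable def a (N : ℕ) : ℕ → ℤ
  | 0 => 0
  | 1 => (N : ℤ) - 6
  | (n + 2) => a N (n + 1) - ((Int.gcd (a N (n + 1)) ((n + 2 + b (n + 2) : ℕ) : ℤ) : ℕ) : ℤ)

/-- `f(N)`: the least `n ≥ 1` with `a_N(n) = 0` -/
noncomputable def f (N : ℕ) : ℕ := sInf {n : ℕ | 1 ≤ n ∧ a N n = 0}

lemma a_eq (N n : ℕ) : a N n = Pool.Agent.R105.GD.aa N n := by
  induction n using Nat.strong_induction_on with
  | _ n ih =>
    match n with
    | 0 => rw [a, Pool.Agent.R105.GD.aa]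
    | 1 => rw [a, Pool.Agent.R105.GD.aa]
    | n + 2 =>
      rw [a, Pool.Agent.R105.GD.aa, ih (n + 1) (by omega)]
      rfl

lemma f_eq (N : ℕ) : f N = Pool.Agent.R105.GD.ff N := by
  unfold f Pool.Agent.R105.GD.ff
  simp only [a_eq]

open Classical in
/-- **Theorem.** There are constants `C, c > 0` such that for all `Z, Y, q, k ∈ ℕ` with `q ≥ 1` and
all integers `2 ≤ H ≤ c log (Y / q)`: at most
`C (q / φ(q)) ^ 3 (Y / q) (log H / log (Y / q)) ^ 3` integers `N ≥ 6` with `Z < N ≤ Z + Y` and
`N ≡ k mod q` satisfy `N - f(N) ≤ H`. -/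
theorem result : ∃ C c : ℝ, 0 < C ∧ 0 < c ∧ ∀ Z Y H q k : ℕ, 1 ≤ q → 2 ≤ H →
    (H : ℝ) ≤ c * Real.log ((Y : ℝ) / q) →
    (((Ioc Z (Z + Y)).filter (fun N : ℕ => 6 ≤ N ∧ N % q = k % q ∧ (N : ℤ) - f N ≤ H)).card : ℝ) ≤
      C * (((q : ℝ) / Nat.totient q) ^ 3 * ((Y : ℝ) / q * (Real.log H / Real.log ((Y : ℝ) / q)) ^ 3)) := by
  obtain ⟨C, c, hC, hc, h⟩ := Pool.Agent.U289.GR.count_small
  refine ⟨C, c, hC, hc, fun Z Y H q k hq hH hHY => le_trans ?_ (h Z Y H q k hq hH hHY)⟩
  have hsub : (Ioc Z (Z + Y)).filter (fun N : ℕ => 6 ≤ N ∧ N % q = k % q ∧ (N : ℤ) - f N ≤ H) ⊆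
      (Ioc Z (Z + Y)).filter (fun N : ℕ => N % q = k % q ∧ N ≤ Pool.Agent.R105.GD.ff N + H) := by
    intro N hN
    rw [mem_filter] at hN ⊢
    obtain ⟨h1, _, h2, h3⟩ := hN
    refine ⟨h1, h2, ?_⟩
    rw [f_eq] at h3
    omega
  exact_mod_cast card_le_card hsub

end Pool.Agent.Results.MP_3f8e47_nt.BrunTitchmarshDefects
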