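import Pool.Agent.U901.GT.Top
import Pool.Agent.Results.MP_3f8e47_nt.FareyTreeOfJumps

/-!
# The gcd recursion for prime triples: many nearly maximal gcds

Let `f = f(N)` be the zero of the recursion of the problem. The starting result FareyTreeOfJumps
says that `f > c √N log N / log log N`. Here the NUMBER of the nearly maximal gcds is bounded from
below: of the gcds which are subtracted up to the zero, at least
`c δ² (N / f) (log N / log (f log N / √N))²` are at least `(k + b k) / N ^ δ` (`k` the step), unless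
`f` is at least `√N N ^ (δ / 10 ^ 4) / (2 log N)`. In particular, if `f ≤ C √N log N / log log N`
(the order of the known lower bound), then a positive proportion of all the subtracted gcds are
nearly maximal. The starting result is the case in which the number of the nearly maximal gcds is
replaced by the number of all steps.

Proof. The method of the starting result (Farey tree of jumps, starting files N60.FD): between two
near steps with very large gcds there is a tree of steps, and every node of the tree is a step with a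
large gcd. So the nodes can be counted instead of all the steps between.
-/

set_option autoImplicit false

namespace Pool.Agent.Results.MP_3f8e47_nt.ManyLargeGcds

/-- The 3-periodic sequence `2, 6, 0, 2, 6, 0, …` (indexed from 1). -/
def b (n : ℕ) : ℕ := if n % 3 = 1 then 2 else if n % 3 = 2 then 6 else 0

/-- `a` is the recursion `a_N` of the problem. -/
def IsRec (N : ℕ) (a : ℕ → ℤ) : Prop :=
  a 1 = (N : ℤ) - 6 ∧
    ∀ n : ℕ, 2 ≤ n → a n = a (n - 1) - ((Int.gcd (a (n - 1)) ((n + b n : ℕ) : ℤ) : ℕ) : ℤ)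

/-- `f` is the zero `f(N)`. -/
def IsZero (a : ℕ → ℤ) (f : ℕ) : Prop := IsLeast {n : ℕ | 1 ≤ n ∧ a n = 0} f

/-- The number of the steps `k` with `2 ≤ k ≤ n` at which the gcd of `a (k - 1)` and `k + b k` is at
least `(k + b k) / N ^ δ`. -/
noncomputable def numLarge (N : ℕ) (a : ℕ → ℤ) (δ : ℝ) (n : ℕ) : ℕ :=
  {k : ℕ | 2 ≤ k ∧ k ≤ n ∧
    ((k + b k : ℕ) : ℝ) ≤ (N : ℝ) ^ δ * (Int.gcd (a (k - 1)) ((k + b k : ℕ) : ℤ) : ℝ)}.ncard

/-- eventually `log log N` is small against `log N` -/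
lemma ev (ε B : ℝ) (hε : 0 < ε) : ∃ N₀ : ℕ, ∀ N : ℕ, N₀ ≤ N →
    B ≤ Real.log N ∧ 27 ≤ Real.log N ∧ Real.log (Real.log N) ≤ ε * Real.log N := by
  have h1 : ∀ᶠ T : ℝ in Filter.atTop, B ≤ T ∧ 27 ≤ T ∧ Real.log T ≤ ε * T := by
    have h2 := Real.isLittleO_log_id_atTop.bound hε
    filter_upwards [h2, Filter.eventually_ge_atTop (max B 27)] with T hT hT2
    refine ⟨(le_max_left _ _).trans hT2, (le_max_right _ _).trans hT2, ?_⟩
    have h3 : Real.log T ≤ ‖Real.log T‖ := le_abs_self _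
    have h4 : ‖id T‖ = T := by
      rw [id, Real.norm_eq_abs, abs_of_nonneg (by linarith [le_max_right B 27])]
    rw [h4] at hT
    linarith
  obtain ⟨N₀, hN₀⟩ := ((Real.tendsto_log_atTop.comp tendsto_natCast_atTop_atTop).eventually
    h1).exists_forall_of_atTop
  exact ⟨N₀, fun N hN => hN₀ N hN⟩

/-- There are `c > 0` and `N₀` such that for all `N ≥ N₀`, for the recursion `a = a_N` of the
problem and all `0 < δ ≤ 1`:
(1) if `x ≥ 1`, `y ≥ 2`, `x y log N ≤ N ^ (δ / 10 ^ 4)`, `n ≤ x √N` and `N - a(n) > N / y`, then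
`numLarge ≥ c δ² (√N / (x y)) (log N / log (x y log N))²` for the steps up to `n`;
(2) for the zero `f`: `2 f log N > √N N ^ (δ / 10 ^ 4)` or
`numLarge ≥ c δ² (N / f) (log N / log (f log N / √N))²` for the steps up to `f`.
Moreover (3) for all `0 < δ ≤ 1` and `C ≥ 1`, if `N` is large and `f ≤ C √N log N / log log N`, then
at least `c (δ / C)² f` of the gcds subtracted up to the zero are at least `(k + b k) / N ^ δ`. -/
theorem result : ∃ c : ℝ, 0 < c ∧
    (∃ N₀ : ℕ, ∀ N : ℕ, N₀ ≤ N → ∀ a : ℕ → ℤ, IsRec N a → ∀ δ : ℝ, 0 < δ → δ ≤ 1 →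
      (∀ x y : ℝ, 1 ≤ x → 2 ≤ y → x * y * Real.log N ≤ (N : ℝ) ^ (δ / 10 ^ 4) →
        ∀ n : ℕ, 1 ≤ n → (n : ℝ) ≤ √(N : ℝ) * x → (N : ℝ) / y < (N : ℝ) - a n →
          c * δ ^ 2 * √(N : ℝ) * (Real.log N / Real.log (x * y * Real.log N)) ^ 2 ≤
            x * y * numLarge N a δ n) ∧
      ∀ f : ℕ, IsZero a f → √(N : ℝ) * (N : ℝ) ^ (δ / 10 ^ 4) < 2 * (f * Real.log N) ∨
        c * δ ^ 2 * N * (Real.log N / Real.log (f / √(N : ℝ) * Real.log N)) ^ 2 ≤
          f * numLarge N a δ f) ∧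
    ∀ δ C : ℝ, 0 < δ → δ ≤ 1 → 1 ≤ C → ∃ N₀ : ℕ, ∀ N : ℕ, N₀ ≤ N → ∀ a : ℕ → ℤ, IsRec N a →
      ∀ f : ℕ, IsZero a f → (f : ℝ) ≤ C * (√(N : ℝ) * (Real.log N / Real.log (Real.log N))) →
        c * (δ / C) ^ 2 * f ≤ numLarge N a δ f := by
  obtain ⟨c₀, hc₀, N₁, hN₁⟩ := FareyTreeOfJumps.result
  obtain ⟨N₂, hN₂⟩ := ev c₀ 27 hc₀
  obtain ⟨N₀, hN₀⟩ : ∃ N₀, N₀ = max N₁ N₂ := ⟨_, rfl⟩
  have hlb : ∀ N : ℕ, N₀ ≤ N → ∀ a : ℕ → ℤ, IsRec N a → ∀ f : ℕ, IsZero a f →
      √(N : ℝ) ≤ f := by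
    intro N hN a ha f hf
    have h1 := (hN₁ N (by omega) a ha.1 ha.2).2 f hf
    obtain ⟨-, h27, hlog⟩ := hN₂ N (by omega)
    have hl1 : 1 ≤ Real.log (Real.log N) := by
      rw [Real.le_log_iff_exp_le (by linarith)]
      have := Real.exp_one_lt_d9
      linarith
    have h2 : 1 ≤ c₀ * (Real.log N / Real.log (Real.log N)) := by
      rw [mul_div_assoc', le_div_iff₀ (by linarith)]
      linarith
    have h3 := mul_le_mul_of_nonneg_left h2 (Real.sqrt_nonneg (N : ℝ))
    linarith
  have hpart : ∀ N : ℕ, N₀ ≤ N → ∀ a : ℕ → ℤ, IsRec N a → ∀ δ : ℝ, 0 < δ → δ ≤ 1 →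
      ∀ f : ℕ, IsZero a f → √(N : ℝ) * (N : ℝ) ^ (δ / 10 ^ 4) < 2 * (f * Real.log N) ∨
        1 / 10 ^ 12 * δ ^ 2 * N * (Real.log N / Real.log (f / √(N : ℝ) * Real.log N)) ^ 2 ≤
          f * numLarge N a δ f := by
    intro N hN a ha δ hδ hδ1 f hf
    obtain ⟨-, h27, hlog⟩ := hN₂ N (by omega)
    have hfs := hlb N hN a ha f hf
    rcases lt_or_ge (√(N : ℝ) * (N : ℝ) ^ (δ / 10 ^ 4)) (2 * (f * Real.log N)) with h | hge
    · exact Or.inl h
    right
    have hN0 : (0 : ℝ) < N := by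
      rcases Nat.eq_zero_or_pos N with h | h
      · rw [h] at h27
        simp at h27
        linarith
      · exact_mod_cast h
    obtain ⟨S, hS⟩ : ∃ S, S = √(N : ℝ) := ⟨_, rfl⟩
    have hS0 : 0 < S := by
      rw [hS]
      exact Real.sqrt_pos.2 hN0
    have hSS : S * S = N := by
      rw [hS]
      exact Real.mul_self_sqrt hN0.le
    obtain ⟨x, hx⟩ : ∃ x : ℝ, x = f / S := ⟨_, rfl⟩
    have hxS : S * x = f := by
      rw [hx]
      field_simp
    rw [← hS] at hfs hge ⊢
    rw [← hx]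
    have hx1 : 1 ≤ x := by
      rw [hx, le_div_iff₀ hS0]
      linarith
    have hxy : x * 2 * Real.log N ≤ (N : ℝ) ^ (δ / 10 ^ 4) := by
      rw [← hxS] at hge
      have : S * (x * 2 * Real.log N) ≤ S * (N : ℝ) ^ (δ / 10 ^ 4) := by linarith
      exact le_of_mul_le_mul_left this hS0
    have h0 : a f = 0 := hf.1.2
    have hmain := Pool.Agent.U901.GT.top hδ hδ1 h27 ha.1 ha.2 hx1 (le_refl (2 : ℝ)) hxy hf.1.1
      (by rw [← hS, hxS]) (by rw [h0]; push_cast; linarith)
    rw [← hS] at hmain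
    have hnl : (Pool.Agent.U901.GT.large N a δ f).ncard = numLarge N a δ f := rfl
    rw [hnl] at hmain
    obtain ⟨T, hT⟩ : ∃ T, T = Real.log N := ⟨_, rfl⟩
    rw [← hT] at hmain h27 ⊢
    have hxT : 27 ≤ x * T := by nlinarith
    have hl0 : 0 < Real.log (x * T) := Real.log_pos (by linarith)
    have hl2 : 0 < Real.log (x * 2 * T) := Real.log_pos (by linarith)
    have hll : Real.log (x * 2 * T) ≤ 2 * Real.log (x * T) := by
      have e : 2 * Real.log (x * T) = Real.log ((x * T) ^ 2) := by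
        rw [Real.log_pow]
        norm_num
      rw [e]
      refine Real.log_le_log (by linarith) ?_
      nlinarith
    have hq : (T / Real.log (x * T)) ^ 2 ≤ 4 * (T / Real.log (x * 2 * T)) ^ 2 := by
      have h1 : T / Real.log (x * T) ≤ 2 * (T / Real.log (x * 2 * T)) := by
        rw [mul_div_assoc', div_le_div_iff₀ hl0 hl2]
        have := mul_le_mul_of_nonneg_left hll (by linarith : (0 : ℝ) ≤ T)
        linarith
      have h2 : 0 ≤ T / Real.log (x * T) := by positivity
      calc (T / Real.log (x * T)) ^ 2 ≤ (2 * (T / Real.log (x * 2 * T))) ^ 2 :=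
            pow_le_pow_left₀ h2 h1 2
        _ = _ := by ring
    have h5 := mul_le_mul_of_nonneg_left hmain hS0.le
    have h6 : S * (x * 2 * (numLarge N a δ f : ℝ)) = 2 * (f * numLarge N a δ f) := by
      rw [← hxS]
      ring
    rw [h6] at h5
    obtain ⟨Q, hQ⟩ : ∃ Q, Q = (T / Real.log (x * 2 * T)) ^ 2 := ⟨_, rfl⟩
    rw [← hQ] at h5 hq
    have h7 : S * (1 / 10 ^ 11 * δ ^ 2 * S * Q) = 1 / 10 ^ 11 * (δ ^ 2 * N * Q) := by
      rw [← hSS]
      ring
    rw [h7] at h5
    have h8 : 1 / 10 ^ 12 * δ ^ 2 * N * (T / Real.log (x * T)) ^ 2 ≤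
        1 / 10 ^ 12 * δ ^ 2 * N * (4 * Q) := mul_le_mul_of_nonneg_left hq (by positivity)
    have h9 : 0 ≤ δ ^ 2 * N * Q := by
      rw [hQ]
      positivity
    have h10 : 1 / 10 ^ 12 * δ ^ 2 * N * (4 * Q) = 4 / 10 ^ 12 * (δ ^ 2 * N * Q) := by ring
    rw [h10] at h8
    linarith
  refine ⟨1 / 10 ^ 13, by positivity, ⟨N₀, ?_⟩, ?_⟩
  · intro N hN a ha δ hδ hδ1
    obtain ⟨-, h27, -⟩ := hN₂ N (by omega)
    refine ⟨?_, ?_⟩
    · intro x y hx hy hxy n hn hnx hny
      have h1 := Pool.Agent.U901.GT.top hδ hδ1 h27 ha.1 ha.2 hx hy hxy hn hnx hny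
      have hnl : (Pool.Agent.U901.GT.large N a δ n).ncard = numLarge N a δ n := rfl
      rw [hnl] at h1
      refine le_trans ?_ h1
      have h2 : 0 ≤ δ ^ 2 * √(N : ℝ) * (Real.log N / Real.log (x * y * Real.log N)) ^ 2 := by
        positivity
      linarith
    · intro f hf
      rcases hpart N hN a ha δ hδ hδ1 f hf with h | h
      · exact Or.inl h
      · right
        refine le_trans ?_ h
        have h2 : 0 ≤ δ ^ 2 * (N : ℝ) * (Real.log N / Real.log (f / √(N : ℝ) * Real.log N)) ^ 2 := by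
          positivity
        linarith
  · intro δ C hδ hδ1 hC
    obtain ⟨N₃, hN₃⟩ := ev (δ / (3 * 10 ^ 4)) (2 * C) (by positivity)
    refine ⟨max N₀ N₃, ?_⟩
    intro N hN a ha f hf hfC
    obtain ⟨h2C, h27, hlog⟩ := hN₃ N (by omega)
    have hfs := hlb N (by omega) a ha f hf
    have hN0 : (0 : ℝ) < N := by
      rcases Nat.eq_zero_or_pos N with h | h
      · rw [h] at h27
        simp at h27
        linarith
      · exact_mod_cast h
    have hor := hpart N (by omega) a ha δ hδ hδ1 f hf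
    obtain ⟨T, hT⟩ : ∃ T, T = Real.log N := ⟨_, rfl⟩
    rw [← hT] at h2C h27 hlog hfC hor
    obtain ⟨S, hS⟩ : ∃ S, S = √(N : ℝ) := ⟨_, rfl⟩
    have hS0 : 0 < S := by
      rw [hS]
      exact Real.sqrt_pos.2 hN0
    have hSS : S * S = N := by
      rw [hS]
      exact Real.mul_self_sqrt hN0.le
    rw [← hS] at hfs hfC hor
    have hT0 : 0 < T := by linarith
    have hl1 : 1 ≤ Real.log T := by
      rw [Real.le_log_iff_exp_le hT0]
      have := Real.exp_one_lt_d9
      linarith
    have hl0 : 0 < Real.log T := by linarith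
    have hTl : T / Real.log T ≤ T := by
      rw [div_le_iff₀ hl0]
      nlinarith
    have hf0 : (0 : ℝ) < f := by linarith
    obtain ⟨x, hx⟩ : ∃ x : ℝ, x = f / S := ⟨_, rfl⟩
    have hxS : S * x = f := by
      rw [hx]
      field_simp
    have hx1 : 1 ≤ x := by
      rw [hx, le_div_iff₀ hS0]
      linarith
    have hxC : x ≤ C * (T / Real.log T) := by
      rw [← hxS] at hfC
      have : S * x ≤ S * (C * (T / Real.log T)) := by linarith
      exact le_of_mul_le_mul_left this hS0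
    have hxT : x ≤ C * T := hxC.trans (mul_le_mul_of_nonneg_left hTl (by linarith))
    rcases hor with hcon | hor
    · exfalso
      have h1 : (N : ℝ) ^ (δ / 10 ^ 4) < 2 * (x * T) := by
        rw [← hxS] at hcon
        have : S * (N : ℝ) ^ (δ / 10 ^ 4) < S * (2 * (x * T)) := by linarith
        exact lt_of_mul_lt_mul_left this hS0.le
      have h2 : 2 * (x * T) ≤ T ^ 3 := by
        have h3 : x * T ≤ C * T * T := mul_le_mul_of_nonneg_right hxT hT0.le
        have h4 : 2 * C * (T * T) ≤ T * (T * T) :=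
          mul_le_mul_of_nonneg_right h2C (by positivity)
        calc 2 * (x * T) ≤ 2 * C * (T * T) := by linarith
          _ ≤ T * (T * T) := h4
          _ = T ^ 3 := by ring
      have h5 : (N : ℝ) ^ (δ / 10 ^ 4) < T ^ 3 := h1.trans_le h2
      have h6 := Real.log_lt_log (by positivity) h5
      rw [Real.log_rpow hN0, ← hT, Real.log_pow] at h6
      push_cast at h6
      have e : δ / (3 * 10 ^ 4) * T = δ / 10 ^ 4 * T / 3 := by ring
      rw [e] at hlog
      linarith
    · rw [← hx] at hor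
      have h3 : x * T ≤ T ^ 3 := by
        have h3 : x * T ≤ C * T * T := mul_le_mul_of_nonneg_right hxT hT0.le
        have h4 : 2 * C * (T * T) ≤ T * (T * T) :=
          mul_le_mul_of_nonneg_right h2C (by positivity)
        have h5 : 0 ≤ C * (T * T) := by positivity
        calc x * T ≤ 2 * C * (T * T) := by linarith
          _ ≤ T * (T * T) := h4
          _ = T ^ 3 := by ring
      have hxT27 : 27 ≤ x * T := by nlinarith
      have hlx : 0 < Real.log (x * T) := Real.log_pos (by linarith)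
      have h4 : Real.log (x * T) ≤ 3 * Real.log T := by
        have := Real.log_le_log (by linarith) h3
        rw [Real.log_pow] at this
        push_cast at this
        linarith
      have h5 : T / Real.log T ≤ 3 * (T / Real.log (x * T)) := by
        rw [mul_div_assoc', div_le_div_iff₀ hl0 hlx]
        have := mul_le_mul_of_nonneg_left h4 hT0.le
        linarith
      have h6 : x ≤ C * (3 * (T / Real.log (x * T))) :=
        hxC.trans (mul_le_mul_of_nonneg_left h5 (by linarith))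
      obtain ⟨Q, hQ⟩ : ∃ Q, Q = T / Real.log (x * T) := ⟨_, rfl⟩
      rw [← hQ] at hor h6
      have hQ0 : 0 ≤ Q := by
        rw [hQ]
        positivity
      have h7 : x ^ 2 ≤ 9 * C ^ 2 * Q ^ 2 := by
        calc x ^ 2 ≤ (C * (3 * Q)) ^ 2 := pow_le_pow_left₀ (by linarith) h6 2
          _ = _ := by ring
      have h8 : (f : ℝ) * (1 / 10 ^ 13 * (δ / C) ^ 2 * f) ≤ f * numLarge N a δ f := by
        refine le_trans ?_ hor
        have e1 : (f : ℝ) * (1 / 10 ^ 13 * (δ / C) ^ 2 * f) =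
            1 / 10 ^ 13 * (δ / C) ^ 2 * N * x ^ 2 := by
          rw [← hxS, ← hSS]
          ring
        rw [e1]
        calc 1 / 10 ^ 13 * (δ / C) ^ 2 * N * x ^ 2 ≤
              1 / 10 ^ 13 * (δ / C) ^ 2 * N * (9 * C ^ 2 * Q ^ 2) :=
              mul_le_mul_of_nonneg_left h7 (by positivity)
          _ = 9 / 10 ^ 13 * (δ ^ 2 * N * Q ^ 2) := by
              have : C ≠ 0 := by linarith
              field_simp
          _ ≤ 1 / 10 ^ 12 * δ ^ 2 * N * Q ^ 2 := by
              have : 0 ≤ δ ^ 2 * (N : ℝ) * Q ^ 2 := by positivity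
              linarith
      exact le_of_mul_le_mul_left h8 hf0

end Pool.Agent.Results.MP_3f8e47_nt.ManyLargeGcds
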