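import Pool.Agent.U449.BV.N
import Pool.Agent.Results.MP_3f8e47_nt.TypicalDefect

/-!
# The gcd recursion for prime triples: the defect near the values of polynomials on arbitrary dense sets

Let `p` be a prime and `f(x, y)` ANY polynomial modulo `p` of degree at most `d` with a monomial which contains both variables (for
example `f = x y`), let `A`, `B` be ARBITRARY sets of residues modulo `p`, `g`, `h` ARBITRARY functions, `0 ≤ θ ≤ 3` and `1 ≤ W ≤ p`.
For all but `Θ |A| |B|` of the pairs `(a, b)` in `A × B`, where `Θ ^ 2 = C d (1 + log p) ^ (θ - 3) (p / |A| + W p / |B|)`, ALL integers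
`N ≥ 6` at a distance of at most `W` from the least residue of `f(a, b) + g(a) + h(b)` satisfy `N - f(N) > (log N) ^ θ`, where `f(N)` is
the zero of the recursion of the problem. So this holds for almost all pairs if `A` and `B` contain at least `p / (log p) ^ V` residues
and `W ≤ (log p) ^ V'`, `V + V' < 3 - θ`. More generally, this holds for all functions `F(a, b)` with few coincidences (`Rare`).

Since the sets and the functions `g` and `h` are arbitrary, the values have no arithmetic structure, and a value may be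
taken by very many pairs. So the number of the exceptions (starting library) does not give the result directly. Proof: the
inequality of Cauchy and Schwarz; for most pairs `a, a'` the difference `F(a, b) - F(a', b)` is small for few `b`
(`Pool.Agent.U449.BV`).
-/

set_option autoImplicit false

namespace Pool.Agent.Results.MP_3f8e47_nt.MixedOnDenseSets

open Finset
open Pool.Agent.U449.BV (Rare OnDense on_dense_nat residues)
open Pool.Agent.Results.MP_3f8e47_nt.TypicalDefect (a f)

/-- ALL integers `N ≥ 6` with `|N - x| ≤ W` satisfy `N - f(N) > (log N) ^ θ`. -/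
def Near (θ W x : ℝ) : Prop :=
  ∀ N : ℕ, 6 ≤ N → |(N : ℝ) - x| ≤ W → Real.log N ^ θ < (N : ℝ) - f N

/-- **Theorem.** For `0 ≤ θ ≤ 3` the property `Near θ` holds for almost all values of functions of two variables with few
coincidences on arbitrary dense sets, with the density `1 / (1 + log X) ^ (3 - θ)` of exceptions (`OnDense`).
The least residues modulo `p` of `f(a, b) + g(a) + h(b)` are such a function, bounded by `X = p`, for all primes `p`, all
polynomials `f` modulo `p` with a monomial which contains both variables, arbitrary functions `g` and `h`, and arbitrary sets of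
residues. -/
theorem result :
    (∀ θ : ℝ, 0 ≤ θ → θ ≤ 3 → OnDense (fun X => 1 / (1 + Real.log X) ^ (3 - θ)) (Near θ)) ∧
    ∀ (p : ℕ) [Fact p.Prime] (d : ℕ) (f : MvPolynomial (Fin 2) (ZMod p)), f.totalDegree ≤ d →
      (∃ m ∈ f.support, m 0 ≠ 0 ∧ m 1 ≠ 0) → ∀ (g h : ZMod p → ZMod p) (A B : Finset (ZMod p)),
        Rare d A B (fun a b => (((MvPolynomial.eval ![a, b] f + g a + h b).val : ℕ) : ℝ)) := by
  classical
  refine ⟨fun θ hθ hθ3 => ?_, residues⟩
  obtain ⟨C, hC, h⟩ := TypicalDefect.result.1
  refine (on_dense_nat (Good := fun N => 6 ≤ N → Real.log N ^ θ < (N : ℝ) - f N) (s := 3 - θ) (K := 2 * C) (by linarith)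
    ⟨3, fun x hx => ?_⟩).mono (fun W x _ h' N hN hw => h' N (by omega) hw hN)
  have hx3 : (3 : ℝ) ≤ x := by exact_mod_cast hx
  have hx0 : (0 : ℝ) < x := by linarith
  have hl1 : 1 ≤ Real.log x := by
    rw [Real.le_log_iff_exp_le hx0]
    have := Real.exp_one_lt_d9
    linarith
  have hl0 : 0 < Real.log x := by linarith
  obtain ⟨H, hH⟩ : ∃ H : ℕ, H = ⌈Real.log x ^ θ⌉₊ := ⟨_, rfl⟩
  have hθ1 : 1 ≤ Real.log x ^ θ := Real.one_le_rpow hl1 hθ
  have hH1 : 1 ≤ H := by
    rw [hH]
    exact Nat.one_le_ceil_iff.2 (by linarith)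
  have hHle : (H : ℝ) ≤ 2 * Real.log x ^ θ := by
    have := Nat.ceil_lt_add_one (a := Real.log x ^ θ) (by linarith)
    rw [hH]
    linarith
  have h1 := h x H (by omega) hH1
  have hsub : {n : ℕ | 1 ≤ n ∧ n ≤ x ∧ ¬ (6 ≤ n → Real.log n ^ θ < (n : ℝ) - f n)} ⊆
      (↑((Icc 6 x).filter (fun N : ℕ => N ≤ f N + H)) : Set ℕ) := by
    rintro n ⟨h1, h2, h3⟩
    rw [Classical.not_imp, not_lt] at h3
    obtain ⟨h4, h5⟩ := h3
    rw [mem_coe, mem_filter, mem_Icc]
    refine ⟨⟨h4, h2⟩, ?_⟩
    have hn6 : (6 : ℝ) ≤ n := by exact_mod_cast h4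
    have hnx : (n : ℝ) ≤ x := by exact_mod_cast h2
    have h6 : Real.log n ^ θ ≤ Real.log x ^ θ :=
      Real.rpow_le_rpow (Real.log_nonneg (by linarith)) (Real.log_le_log (by linarith) hnx) hθ
    have h7 : Real.log x ^ θ ≤ H := by rw [hH]; exact Nat.le_ceil _
    have h8 : (n : ℝ) ≤ f n + H := by linarith
    exact_mod_cast h8
  have h9 := Set.ncard_le_ncard hsub (Finset.finite_toSet _)
  rw [Set.ncard_coe_finset] at h9
  refine le_trans (Nat.cast_le.2 h9) (h1.trans ?_)
  have e : (x : ℝ) / Real.log x ^ (3 - θ) = x * Real.log x ^ θ / Real.log x ^ 3 := by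
    have e3 : Real.log x ^ (3 - θ) = Real.log x ^ (3 : ℕ) / Real.log x ^ θ := by
      rw [Real.rpow_sub hl0, ← Real.rpow_natCast]
      norm_num
    rw [e3]
    have : Real.log x ^ θ ≠ 0 := (Real.rpow_pos_of_pos hl0 θ).ne'
    field_simp
  rw [e]
  have h10 : 0 < Real.log (x : ℝ) ^ 3 := by positivity
  calc C * H * (x / Real.log x ^ 3) ≤ C * (2 * Real.log x ^ θ) * (x / Real.log x ^ 3) := by
        apply mul_le_mul_of_nonneg_right _ (by positivity)
        exact mul_le_mul_of_nonneg_left hHle hC.le
    _ = 2 * C * (x * Real.log x ^ θ / Real.log x ^ 3) := by ring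

end Pool.Agent.Results.MP_3f8e47_nt.MixedOnDenseSets
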