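import Pool.Agent.U464.GD.Near
import Pool.Agent.Results.MP_3f8e47_nt.TypicalDefect

/-!
# The gcd recursion for prime triples: the defect for integers with restricted digits in short windows

Let `b ≥ 2` and `D` be integers. The integers `N` have prescribed leading digits in base `b`: `N` lies in the window
`[x s, x (s + 1))`, `x = b ^ K`, where `s` may be as large as `x ^ D`, so that the window may be as short as any power of
`N`. The `i`-th digit of `N` (`i < K`) belongs to `A i`, where the sets of digits `A i` are ARBITRARY, only the number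
`P = ∏ |A i|` of these `N` is at least `exp (- δ K) x`, `δ = δ(D) > 0`. So the set of these `N` may be as thin as a power
(for example, large bases and one missing digit at all places, or many fixed digits). Uniformly in `s` and in the sets `A i`

* at most `C H P / K ^ 3` of these `N` satisfy `N - f(N) ≤ H`, for all `H ≥ 1` (`K = log x / log b`);
* at most `C P / K ^ (3 - θ)` of these `N` satisfy `N - f(N) ≤ (log N) ^ θ`, `0 ≤ θ ≤ 3`. So for `θ < 3` almost all of
  them satisfy `N - f(N) > (log N) ^ θ`.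

The starting result `TypicalDefect` has these bounds for the set of all `N ≤ X`; it says nothing about sets which contain
at most `X / (log X) ^ 3` elements. Proof: by the starting result `LongLife`, `f(N) + 1`, `f(N) + 3`, `f(N) + 7` are primes if
`f(N) ≥ 4 N / 5`; the integers with restricted digits in a window near such triples are counted by the sieve for
polynomial values at integers with restricted digits (`Pool/Agent/U464/GD/Near.lean`, `Pool/Agent/U464/PD/Win.lean`, from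
the starting library), uniformly in the distance.
-/

set_option autoImplicit false

namespace Pool.Agent.Results.MP_3f8e47_nt.RestrictedDigits

open Finset Filter
open Pool.Agent.Results.MP_3f8e47_nt.TypicalDefect (a f f_eq)

/-- The `N` in `[b ^ K s, b ^ K (s + 1))` whose `i`-th digit in base `b` (the digit of the units for `i = 0`) belongs
to `A i` for all `i < K`. -/
def Digits (b K s : ℕ) (A : ℕ → Finset ℕ) : Set ℕ :=
  {N | b ^ K * s ≤ N ∧ N < b ^ K * (s + 1) ∧ ∀ i < K, N / b ^ i % b ∈ A i}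

/-- the first part -/
theorem part (D : ℕ) : ∃ δ : ℝ, 0 < δ ∧ ∀ b : ℕ, 2 ≤ b → ∃ C : ℝ, 0 < C ∧ ∀ᶠ K : ℕ in atTop,
    ∀ s : ℕ, s ≤ b ^ (D * K) → ∀ A : ℕ → Finset ℕ, (∀ i < K, A i ⊆ range b) →
      (b : ℝ) ^ K ≤ Real.exp (δ * K) * ∏ i ∈ range K, ((A i).card : ℝ) →
      ∀ H : ℕ, 1 ≤ H → ({N | N ∈ Digits b K s A ∧ 6 ≤ N ∧ N ≤ f N + H}.ncard : ℝ) ≤
        C * H * (∏ i ∈ range K, ((A i).card : ℝ)) / (K : ℝ) ^ 3 := by
  classical
  obtain ⟨δ, hδ, h⟩ := Pool.Agent.U464.GD.near 3 D (by norm_num) ![1, 3, 7]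
    (by intro i j hij; fin_cases i <;> fin_cases j <;> simp_all)
    (by
      intro p hp
      by_cases h2 : p = 2
      · subst h2
        exact ⟨0, fun i => by fin_cases i <;> simp⟩
      by_cases h3 : p = 3
      · subst h3
        exact ⟨1, fun i => by fin_cases i <;> simp⟩
      by_cases h5 : p = 5
      · subst h5
        exact ⟨0, fun i => by fin_cases i <;> simp⟩
      by_cases h7 : p = 7
      · subst h7
        exact ⟨1, fun i => by fin_cases i <;> simp⟩
      · have h8 : 8 ≤ p := by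
          by_contra hlt
          push Not at hlt
          interval_cases p <;> simp_all (config := { decide := true })
        refine ⟨0, fun i hd => ?_⟩
        have h9 := Nat.le_of_dvd (by fin_cases i <;> simp) hd
        fin_cases i <;> simp at h9 <;> omega)
  refine ⟨min δ (Real.log 2 / 4), lt_min hδ (by have := Real.log_pos (show (1 : ℝ) < 2 by norm_num); positivity),
    fun b hb => ?_⟩
  obtain ⟨C, hC, h1⟩ := h b hb
  refine ⟨C + 1, by linarith, ?_⟩
  filter_upwards [h1, Pool.Agent.U464.GD.grow 3, eventually_ge_atTop 2105] with K hK hg hK1 s hs A hA hprod H hH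
  have hK0 : (0 : ℝ) < K := by exact_mod_cast (by omega : 0 < K)
  obtain ⟨P, hP⟩ : ∃ P : ℝ, P = ∏ i ∈ range K, ((A i).card : ℝ) := ⟨_, rfl⟩
  have hP0 : 0 ≤ P := by rw [hP]; exact prod_nonneg fun _ _ => Nat.cast_nonneg _
  rw [← hP] at hprod ⊢
  have hNA : Pool.Agent.Y816.PD.NA K A = P := by rw [hP]; rfl
  have hH1 : (1 : ℝ) ≤ H := by exact_mod_cast hH
  have hprod' : (b : ℝ) ^ K ≤ Real.exp (δ * K) * Pool.Agent.Y816.PD.NA K A := by
    rw [hNA]
    exact hprod.trans (mul_le_mul_of_nonneg_right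
      (Real.exp_le_exp.2 (mul_le_mul_of_nonneg_right (min_le_left _ _) hK0.le)) hP0)
  have h2 := hK s hs A hA hprod' H hH
  rw [hNA] at h2
  have hfin : (Pool.Agent.U464.GD.Dig b K s A).Finite := Pool.Agent.U464.GD.Dig_finite b K s A
  have hcov : {N | N ∈ Digits b K s A ∧ 6 ≤ N ∧ N ≤ f N + H} ⊆ (↑(range (2100 + 5 * H)) : Set ℕ) ∪
      {m | m ∈ Pool.Agent.U464.GD.Dig b K s A ∧
        ∃ h, h ≤ H ∧ h ≤ m ∧ ∀ i, (m - h + (![1, 3, 7] : Fin 3 → ℕ) i).Prime} := by
    rintro N ⟨hN, h6, hfN⟩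
    by_cases hs : N < 2100 + 5 * H
    · left
      exact mem_coe.2 (mem_range.2 hs)
    · right
      push Not at hs
      have hfle := Pool.Agent.R105.GD.ff_le N h6
      rw [← f_eq] at hfle
      have hp := Pool.Agent.R105.GD.ff_primes N (by omega) (by rw [← f_eq]; omega)
      rw [← f_eq] at hp
      refine ⟨hN, N - f N, by omega, by omega, fun i => ?_⟩
      have e : N - (N - f N) = f N := by omega
      rw [e]
      fin_cases i
      · exact hp.1
      · exact hp.2.1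
      · exact hp.2.2
  have hn := (Set.ncard_le_ncard hcov ((Finset.finite_toSet _).union (hfin.subset fun m hm => hm.1))).trans
    (Set.ncard_union_le _ _)
  rw [Set.ncard_coe_finset, card_range] at hn
  have hn' : ({N | N ∈ Digits b K s A ∧ 6 ≤ N ∧ N ≤ f N + H}.ncard : ℝ) ≤ ((2100 + 5 * H : ℕ) : ℝ) +
      C * H * P / (K : ℝ) ^ 3 := by
    refine (Nat.cast_le.2 hn).trans ?_
    rw [Nat.cast_add]
    exact add_le_add_right h2 _
  refine hn'.trans ?_
  have h3 : ((2100 + 5 * H : ℕ) : ℝ) ≤ H * (P / (K : ℝ) ^ 3) := by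
    have hPl : (K : ℝ) ^ 4 ≤ P := by
      have hb' : (2 : ℝ) ≤ b := by exact_mod_cast hb
      have h4 : (2 : ℝ) ^ K ≤ (b : ℝ) ^ K := pow_le_pow_left₀ (by norm_num) hb' K
      have h5 : Real.exp (min δ (Real.log 2 / 4) * K) ≤ Real.exp (K * (Real.log 2 / 4)) := by
        apply Real.exp_le_exp.2
        rw [mul_comm]
        exact mul_le_mul_of_nonneg_left (min_le_right _ _) hK0.le
      have h6 : (2 : ℝ) ^ K = Real.exp (K * (Real.log 2 / 4)) ^ 4 := by
        rw [← Real.exp_nat_mul, ← Real.rpow_natCast, Real.rpow_def_of_pos (by norm_num)]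
        congr 1
        push_cast
        ring
      obtain ⟨E, hE⟩ : ∃ E : ℝ, E = Real.exp (K * (Real.log 2 / 4)) := ⟨_, rfl⟩
      rw [← hE] at h5 h6 hg
      have hE0 : 0 < E := by rw [hE]; exact Real.exp_pos _
      have h7 : E ^ 4 ≤ E * P := by
        rw [← h6]
        exact h4.trans (hprod.trans (mul_le_mul_of_nonneg_right h5 hP0))
      have h8 : E ^ 3 ≤ P := by
        have : E * E ^ 3 ≤ E * P := by
          calc E * E ^ 3 = E ^ 4 := by ring
            _ ≤ E * P := h7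
        exact le_of_mul_le_mul_left this hE0
      have hK1' : (1 : ℝ) ≤ K := by exact_mod_cast (by omega : 1 ≤ K)
      have h9 : (K : ℝ) ^ 4 ≤ (K : ℝ) ^ (2 * 3) := pow_le_pow_right₀ hK1' (by norm_num)
      have h10 : (K : ℝ) ^ (2 * 3) ≤ E := by
        have : 0 ≤ (K : ℝ) ^ (2 * 3) := by positivity
        linarith
      have h11 : 1 ≤ E := by
        have : (1 : ℝ) ≤ (K : ℝ) ^ (2 * 3) := one_le_pow₀ hK1'
        linarith
      have h12 : E ≤ E ^ 3 := by
        calc E = E ^ 1 := (pow_one E).symm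
          _ ≤ E ^ 3 := pow_le_pow_right₀ h11 (by norm_num)
      linarith
    have h4 : (K : ℝ) ≤ P / (K : ℝ) ^ 3 := by
      rw [le_div_iff₀ (by positivity)]
      calc (K : ℝ) * (K : ℝ) ^ 3 = (K : ℝ) ^ 4 := by ring
        _ ≤ P := hPl
    have h5 : (2105 : ℝ) ≤ K := by exact_mod_cast hK1
    push_cast
    nlinarith
  calc ((2100 + 5 * H : ℕ) : ℝ) + C * H * P / (K : ℝ) ^ 3 ≤
      H * (P / (K : ℝ) ^ 3) + C * H * P / (K : ℝ) ^ 3 := by linarith
    _ = (C + 1) * H * P / (K : ℝ) ^ 3 := by ring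

/-- **The defect `N - f(N)` for integers with restricted digits in short windows.** -/
theorem result (D : ℕ) : ∃ δ : ℝ, 0 < δ ∧ ∀ b : ℕ, 2 ≤ b → ∃ C : ℝ, 0 < C ∧
    (∀ᶠ K : ℕ in atTop, ∀ s : ℕ, s ≤ b ^ (D * K) → ∀ A : ℕ → Finset ℕ, (∀ i < K, A i ⊆ range b) →
      (b : ℝ) ^ K ≤ Real.exp (δ * K) * ∏ i ∈ range K, ((A i).card : ℝ) →
      ∀ H : ℕ, 1 ≤ H → ({N | N ∈ Digits b K s A ∧ 6 ≤ N ∧ (N : ℝ) - f N ≤ H}.ncard : ℝ) ≤
        C * H * (∏ i ∈ range K, ((A i).card : ℝ)) / (K : ℝ) ^ 3) ∧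
    (∀ᶠ K : ℕ in atTop, ∀ s : ℕ, s ≤ b ^ (D * K) → ∀ A : ℕ → Finset ℕ, (∀ i < K, A i ⊆ range b) →
      (b : ℝ) ^ K ≤ Real.exp (δ * K) * ∏ i ∈ range K, ((A i).card : ℝ) →
      ∀ θ : ℝ, 0 ≤ θ → θ ≤ 3 →
        ({N | N ∈ Digits b K s A ∧ 6 ≤ N ∧ (N : ℝ) - f N ≤ Real.log N ^ θ}.ncard : ℝ) ≤
          C * (∏ i ∈ range K, ((A i).card : ℝ)) / (K : ℝ) ^ (3 - θ)) := by
  classical
  obtain ⟨δ, hδ, h⟩ := part D
  refine ⟨δ, hδ, fun b hb => ?_⟩
  obtain ⟨C, hC, h1⟩ := h b hb
  have hb' : (2 : ℝ) ≤ b := by exact_mod_cast hb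
  have hlb : 0 < Real.log b := Real.log_pos (by linarith)
  obtain ⟨M, hM⟩ : ∃ M : ℝ, M = 1 + (D + 2) * Real.log b := ⟨_, rfl⟩
  have hM1 : 1 ≤ M := by
    rw [hM]
    have : (0 : ℝ) ≤ (D + 2) * Real.log b := by positivity
    linarith
  have hM3 : (1 : ℝ) ≤ M ^ 3 := one_le_pow₀ hM1
  refine ⟨2 * C * M ^ 3, by positivity, ?_, ?_⟩
  · filter_upwards [h1] with K hK s hs A hA hprod H hH
    have h2 := hK s hs A hA hprod H hH
    have e : {N | N ∈ Digits b K s A ∧ 6 ≤ N ∧ (N : ℝ) - f N ≤ H} =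
        {N | N ∈ Digits b K s A ∧ 6 ≤ N ∧ N ≤ f N + H} := by
      ext N
      simp only [Set.mem_ofPred_eq, and_congr_right_iff]
      intro _ _
      rw [sub_le_iff_le_add']
      exact_mod_cast Iff.rfl
    rw [e]
    refine h2.trans ?_
    have hP0 : (0 : ℝ) ≤ ∏ i ∈ range K, ((A i).card : ℝ) := prod_nonneg fun _ _ => Nat.cast_nonneg _
    have h3 : C ≤ 2 * C * M ^ 3 := by nlinarith
    gcongr
  · filter_upwards [h1, eventually_ge_atTop 2] with K hK hK2 s hs A hA hprod θ hθ hθ3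
    have hK0 : (0 : ℝ) < K := by exact_mod_cast (by omega : 0 < K)
    have hK1 : (1 : ℝ) ≤ K := by exact_mod_cast (by omega : 1 ≤ K)
    obtain ⟨P, hP⟩ : ∃ P : ℝ, P = ∏ i ∈ range K, ((A i).card : ℝ) := ⟨_, rfl⟩
    have hP0 : 0 ≤ P := by rw [hP]; exact prod_nonneg fun _ _ => Nat.cast_nonneg _
    obtain ⟨H, hH⟩ : ∃ H : ℕ, H = ⌈(M * K) ^ θ⌉₊ := ⟨_, rfl⟩
    have hMK : 1 ≤ M * K := by nlinarith
    have hMKθ : 1 ≤ (M * K) ^ θ := Real.one_le_rpow hMK hθ
    have hH1 : 1 ≤ H := by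
      rw [hH]
      exact Nat.one_le_ceil_iff.2 (by linarith)
    have hHle : (H : ℝ) ≤ 2 * (M * K) ^ θ := by
      have := Nat.ceil_lt_add_one (a := (M * K) ^ θ) (by linarith)
      rw [hH]
      linarith
    have h2 := hK s hs A hA hprod H hH1
    rw [← hP] at h2 ⊢
    have hsub : {N | N ∈ Digits b K s A ∧ 6 ≤ N ∧ (N : ℝ) - f N ≤ Real.log N ^ θ} ⊆
        {N | N ∈ Digits b K s A ∧ 6 ≤ N ∧ N ≤ f N + H} := by
      rintro N ⟨hN, h6, hfN⟩
      refine ⟨hN, h6, ?_⟩
      have hN6 : (6 : ℝ) ≤ N := by exact_mod_cast h6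
      have hNlt : N ≤ b ^ ((D + 2) * K) := by
        have e1 : b ^ ((D + 2) * K) = b ^ K * (b ^ K * b ^ (D * K)) := by
          rw [← pow_add, ← pow_add]
          congr 1
          ring
        rw [e1]
        refine (hN.2.1.le).trans (Nat.mul_le_mul_left _ ?_)
        have h3 : 2 ≤ b ^ K := by
          calc 2 = 2 ^ 1 := by norm_num
            _ ≤ 2 ^ K := Nat.pow_le_pow_right (by norm_num) (by omega)
            _ ≤ b ^ K := Nat.pow_le_pow_left hb K
        have h4 : 1 ≤ b ^ (D * K) := Nat.one_le_pow _ _ (by omega)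
        calc s + 1 ≤ 2 * b ^ (D * K) := by omega
          _ ≤ b ^ K * b ^ (D * K) := Nat.mul_le_mul_right _ h3
      have hlog : Real.log N ≤ M * K := by
        have h3 : (N : ℝ) ≤ (b : ℝ) ^ ((D + 2) * K) := by exact_mod_cast hNlt
        have h4 := Real.log_le_log (by linarith) h3
        rw [Real.log_pow] at h4
        refine h4.trans ?_
        rw [hM]
        push_cast
        nlinarith
      have h5 : Real.log N ^ θ ≤ (M * K) ^ θ :=
        Real.rpow_le_rpow (Real.log_nonneg (by linarith)) hlog hθ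
      have h7 : (M * K) ^ θ ≤ H := by rw [hH]; exact Nat.le_ceil _
      have h8 : (N : ℝ) ≤ f N + H := by linarith
      exact_mod_cast h8
    have hfin : {N | N ∈ Digits b K s A ∧ 6 ≤ N ∧ N ≤ f N + H}.Finite :=
      (Set.finite_Iio (b ^ K * (s + 1))).subset fun _ h => h.1.2.1
    refine (Nat.cast_le.2 (Set.ncard_le_ncard hsub hfin)).trans (h2.trans ?_)
    have h3 : (M * K) ^ θ ≤ M ^ 3 * (K : ℝ) ^ θ := by
      rw [Real.mul_rpow (by linarith) hK0.le]
      apply mul_le_mul_of_nonneg_right _ (by positivity)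
      calc M ^ θ ≤ M ^ (3 : ℝ) := Real.rpow_le_rpow_of_exponent_le hM1 hθ3
        _ = M ^ 3 := by norm_cast
    have h4 : (H : ℝ) ≤ 2 * (M ^ 3 * (K : ℝ) ^ θ) := by linarith
    have e3 : (K : ℝ) ^ (3 - θ) = (K : ℝ) ^ (3 : ℕ) / (K : ℝ) ^ θ := by
      rw [Real.rpow_sub hK0, ← Real.rpow_natCast]
      norm_num
    rw [e3]
    have hKθ : 0 < (K : ℝ) ^ θ := Real.rpow_pos_of_pos hK0 θ
    calc C * H * P / (K : ℝ) ^ 3 ≤ C * (2 * (M ^ 3 * (K : ℝ) ^ θ)) * P / (K : ℝ) ^ 3 := by gcongr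
      _ = 2 * C * M ^ 3 * P / ((K : ℝ) ^ (3 : ℕ) / (K : ℝ) ^ θ) := by
        field_simp

end Pool.Agent.Results.MP_3f8e47_nt.RestrictedDigits
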